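import Pool.Agent.H94.LH.Stmts

set_option autoImplicit false

namespace Pool.LH

open Finset Pool.Agent.H98.ABCR Pool.SHA

namespace H22D

lemma coord_pos {v : ℕ × ℕ} (hv : IsTri v) (s : Fin 3) : 0 < coord v s := by
  obtain ⟨h1, h2, h3⟩ := hv
  fin_cases s <;> simp [coord] <;> omega

lemma coord_le {v : ℕ × ℕ} (s : Fin 3) : coord v s ≤ v.1 + v.2 := by
  fin_cases s <;> simp [coord]

lemma cop {v : ℕ × ℕ} (hv : IsTri v) (s t : Fin 3) (h : s ≠ t) :
    (coord v s).Coprime (coord v t) := by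
  obtain ⟨ha, hb, hc⟩ := hv
  have c02 : v.1.Coprime (v.1 + v.2) := by simpa using hc
  have c12 : v.2.Coprime (v.1 + v.2) := by simpa using hc.symm
  fin_cases s <;> fin_cases t
  · exact absurd rfl h
  · exact hc
  · exact c02
  · exact hc.symm
  · exact absurd rfl h
  · exact c12
  · exact c02.symm
  · exact c12.symm
  · exact absurd rfl h

lemma dvd_nn (v : ℕ × ℕ) (s : Fin 3) : coord v s ∣ nn v := by
  unfold nn
  fin_cases s
  · exact Dvd.intro (v.2 * (v.1 + v.2)) (by simp [coord, mul_assoc])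
  · exact Dvd.intro (v.1 * (v.1 + v.2)) (by simp only [coord]; simp; ring)
  · exact Dvd.intro (v.1 * v.2) (by simp only [coord]; simp; ring)

lemma nn_pos {v : ℕ × ℕ} (hv : IsTri v) : 0 < nn v := by
  obtain ⟨h1, h2, h3⟩ := hv
  unfold nn
  positivity

/-- logarithm of a product of prime powers -/
lemma log_prod (P : Finset ℕ) (hP : ∀ p ∈ P, p.Prime) (f : ℕ → ℕ) :
    Real.log ((∏ p ∈ P, p ^ f p : ℕ) : ℝ) = ∑ p ∈ P, (f p : ℝ) * Real.log p := by
  rw [Nat.cast_prod, Real.log_prod (fun q hq => by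
    have := (hP q hq).pos
    positivity)]
  refine Finset.sum_congr rfl fun q _ => ?_
  rw [Nat.cast_pow, Real.log_pow]

lemma prod_pos (P : Finset ℕ) (hP : ∀ p ∈ P, p.Prime) (f : ℕ → ℕ) : 0 < ∏ p ∈ P, p ^ f p :=
  Finset.prod_pos fun q hq => pow_pos (hP q hq).pos _

lemma prod_eq {n : ℕ} (hn : n ≠ 0) (P : Finset ℕ) (hP : n.primeFactors ⊆ P) :
    ∏ p ∈ P, p ^ n.factorization p = n := by
  have h4 : ∏ q ∈ n.primeFactors, q ^ n.factorization q = n := Nat.prod_factorization_pow_eq_self hn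
  conv_rhs => rw [← h4]
  symm
  refine Finset.prod_subset hP ?_
  intro q _ hq2
  rw [← Nat.support_factorization, Finsupp.notMem_support_iff] at hq2
  rw [hq2, pow_zero]

lemma prime_dvd (P : Finset ℕ) (hP : ∀ p ∈ P, p.Prime) (f : ℕ → ℕ) (p : ℕ) (hp : p.Prime)
    (hd : p ∣ ∏ q ∈ P, q ^ f q) : p ∈ P := by
  obtain ⟨q, hq, hdq⟩ := (Prime.dvd_finsetProd_iff hp.prime _).mp hd
  have h1 := hp.dvd_of_dvd_pow hdq
  rw [(Nat.prime_dvd_prime_iff_eq hp (hP q hq)).mp h1]
  exact hq

end H22D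

open H22D

theorem dec_thm (h : S_MULT) : S_DEC := by
  classical
  intro g G h0 L v s1 s2 hg hG hs hv hG2 hR hh0
  have hc1 := coord_pos hv s1
  have hc2 := coord_pos hv s2
  have hnn := nn_pos hv
  set P : Finset ℕ := (coord v s1 * coord v s2).primeFactors with hP
  have hPp : ∀ p ∈ P, p.Prime := fun p hp => Nat.prime_of_mem_primeFactors hp
  have hmuldvd : coord v s1 * coord v s2 ∣ nn v :=
    (cop hv s1 s2 hs).mul_dvd_of_dvd_of_dvd (dvd_nn v s1) (dvd_nn v s2)
  have hPsub : P ⊆ (nn v).primeFactors := Nat.primeFactors_mono hmuldvd hnn.ne'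
  have hPcard : P.card ≤ om (nn v) := Finset.card_le_card hPsub
  have hsub1 : (coord v s1).primeFactors ⊆ P :=
    Nat.primeFactors_mono (dvd_mul_right _ _) (mul_pos hc1 hc2).ne'
  have hsub2 : (coord v s2).primeFactors ⊆ P :=
    Nat.primeFactors_mono (dvd_mul_left _ _) (mul_pos hc1 hc2).ne'
  have hlt : G ^ P.card < g := lt_of_le_of_lt (Nat.pow_le_pow_right hG hPcard) hG2
  obtain ⟨z, σ, y, hz1, hz2, hzy⟩ := h g G P
    (fun p => ((coord v s1).factorization p : ℤ) - (coord v s2).factorization p) hg hG hlt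
  have hg0 : (0 : ℝ) < g := by exact_mod_cast hg.pos
  have hG0 : (0 : ℝ) < G := by exact_mod_cast (Nat.lt_of_lt_of_le Nat.zero_lt_one hG)
  have hlogp : ∀ p ∈ P, 0 ≤ Real.log (p : ℝ) := fun p hp =>
    Real.log_nonneg (by exact_mod_cast (hPp p hp).one_lt.le)
  -- the sum of the logarithms of the primes
  have hL1 : ∑ p ∈ P, Real.log (p : ℝ) ≤ L := by
    have h1 : ∑ p ∈ P, Real.log (p : ℝ) ≤ ∑ p ∈ (nn v).primeFactors, Real.log (p : ℝ) :=
      Finset.sum_le_sum_of_subset_of_nonneg hPsub (fun p hp _ =>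
        Real.log_nonneg (by exact_mod_cast (Nat.prime_of_mem_primeFactors hp).one_lt.le))
    have h2 : Real.log (RR v : ℝ) = ∑ p ∈ (nn v).primeFactors, Real.log (p : ℝ) := by
      unfold RR rad
      rw [Nat.cast_prod, Real.log_prod (fun q hq => by
        have := (Nat.prime_of_mem_primeFactors hq).pos
        positivity)]
    have h3 : Real.log (RR v : ℝ) ≤ L := by
      have h4 : (0 : ℝ) < RR v := by
        have : 0 < RR v := by
          unfold RR rad
          exact Finset.prod_pos fun q hq => (Nat.prime_of_mem_primeFactors hq).pos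
        exact_mod_cast this
      rw [Real.log_le_iff_le_exp h4]
      exact hR
    linarith
  have hσ : ∀ p ∈ P, |(σ p : ℝ)| ≤ g / G := by
    intro p hp
    have h1 := (hzy p hp).2
    have h2 : (G : ℝ) * |(σ p : ℝ)| ≤ g := by exact_mod_cast h1
    rw [le_div_iff₀ hG0]
    linarith
  have hsumσ : ∑ p ∈ P, |(σ p : ℝ)| * Real.log p ≤ g * L / G := by
    calc ∑ p ∈ P, |(σ p : ℝ)| * Real.log p ≤ ∑ p ∈ P, (g / G : ℝ) * Real.log p :=
          Finset.sum_le_sum fun p hp => mul_le_mul_of_nonneg_right (hσ p hp) (hlogp p hp)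
      _ = (g / G : ℝ) * ∑ p ∈ P, Real.log p := by rw [Finset.mul_sum]
      _ ≤ (g / G : ℝ) * L := mul_le_mul_of_nonneg_left hL1 (by positivity)
      _ = g * L / G := by ring
  have hf1 : ∑ p ∈ P, ((coord v s1).factorization p : ℝ) * Real.log p = Real.log (coord v s1) := by
    rw [← log_prod P hPp, prod_eq hc1.ne' P hsub1]
  have hf2 : ∑ p ∈ P, ((coord v s2).factorization p : ℝ) * Real.log p = Real.log (coord v s2) := by
    rw [← log_prod P hPp, prod_eq hc2.ne' P hsub2]
  have hlc : ∀ s, 0 < coord v s → Real.log (coord v s : ℝ) ≤ 2 * h0 := by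
    intro s hs0
    refine le_trans ?_ hh0
    unfold hh
    exact Real.log_le_log (by exact_mod_cast hs0) (by exact_mod_cast coord_le s)
  have hy : ∀ p ∈ P, |(y p : ℝ)| ≤ (((coord v s1).factorization p : ℝ) +
      (coord v s2).factorization p) / g + |(σ p : ℝ)| := by
    intro p hp
    have h1 := (hzy p hp).1
    have h2 : ((coord v s1).factorization p : ℝ) - (coord v s2).factorization p =
        z * σ p + g * y p := by exact_mod_cast h1
    have h3 : (g : ℝ) * |(y p : ℝ)| ≤ ((coord v s1).factorization p : ℝ) +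
        (coord v s2).factorization p + g * |(σ p : ℝ)| := by
      have h4 : (g : ℝ) * |(y p : ℝ)| = |(g : ℝ) * y p| := by
        rw [abs_mul, abs_of_pos hg0]
      have h5 : (g : ℝ) * y p = ((coord v s1).factorization p : ℝ) +
        (-((coord v s2).factorization p : ℝ)) + (-(z * σ p : ℝ)) := by linarith
      rw [h4, h5]
      have h6 : (0 : ℝ) ≤ (coord v s1).factorization p := Nat.cast_nonneg _
      have h7 : (0 : ℝ) ≤ (coord v s2).factorization p := Nat.cast_nonneg _
      have h8 : |(z * σ p : ℝ)| ≤ g * |(σ p : ℝ)| := by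
        rw [abs_mul, abs_of_nonneg (Nat.cast_nonneg z : (0 : ℝ) ≤ z)]
        have : (z : ℝ) ≤ g := by exact_mod_cast hz2.le
        exact mul_le_mul_of_nonneg_right this (abs_nonneg _)
      have h9 := abs_add_three ((coord v s1).factorization p : ℝ)
        (-((coord v s2).factorization p : ℝ)) (-(z * σ p : ℝ))
      rw [abs_neg, abs_neg, abs_of_nonneg h6, abs_of_nonneg h7] at h9
      linarith
    have h10 : |(y p : ℝ)| = ((g : ℝ) * |(y p : ℝ)|) / g := by field_simp
    rw [h10]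
    calc ((g : ℝ) * |(y p : ℝ)|) / g ≤ (((coord v s1).factorization p : ℝ) +
        (coord v s2).factorization p + g * |(σ p : ℝ)|) / g :=
          div_le_div_of_nonneg_right h3 hg0.le
      _ = _ := by field_simp
  have hsumy : ∑ p ∈ P, |(y p : ℝ)| * Real.log p ≤ 4 * h0 / g + g * L / G := by
    calc ∑ p ∈ P, |(y p : ℝ)| * Real.log p ≤
        ∑ p ∈ P, ((((coord v s1).factorization p : ℝ) +
          (coord v s2).factorization p) / g + |(σ p : ℝ)|) * Real.log p :=
          Finset.sum_le_sum fun p hp => mul_le_mul_of_nonneg_right (hy p hp) (hlogp p hp)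
      _ = ((∑ p ∈ P, ((coord v s1).factorization p : ℝ) * Real.log p) +
          (∑ p ∈ P, ((coord v s2).factorization p : ℝ) * Real.log p)) / g +
          ∑ p ∈ P, |(σ p : ℝ)| * Real.log p := by
          rw [← Finset.sum_add_distrib, Finset.sum_div, ← Finset.sum_add_distrib]
          refine Finset.sum_congr rfl fun p _ => ?_
          ring
      _ ≤ 4 * h0 / g + g * L / G := by
          rw [hf1, hf2]
          have h1 := hlc s1 hc1
          have h2 := hlc s2 hc2
          have h3 : (Real.log (coord v s1 : ℝ) + Real.log (coord v s2 : ℝ)) / g ≤ 4 * h0 / g :=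
            div_le_div_of_nonneg_right (by linarith) hg0.le
          linarith
  -- generic bound
  have key : ∀ (f : ℕ → ℤ) (E : ℝ), ∑ p ∈ P, |(f p : ℝ)| * Real.log p ≤ E →
      ((∏ p ∈ P, p ^ (f p).toNat : ℕ) : ℝ) ≤ Real.exp E ∧
      ((∏ p ∈ P, p ^ (-f p).toNat : ℕ) : ℝ) ≤ Real.exp E := by
    intro f E hE
    have tn : ∀ a : ℤ, ((a.toNat : ℕ) : ℝ) ≤ |(a : ℝ)| := by
      intro a
      rcases le_total 0 a with ha | ha
      · have : ((a.toNat : ℤ) : ℝ) = (a : ℝ) := by rw [Int.toNat_of_nonneg ha]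
        have h2 : ((a.toNat : ℕ) : ℝ) = (a : ℝ) := by exact_mod_cast this
        rw [h2]; exact le_abs_self _
      · rw [Int.toNat_of_nonpos ha]
        simp
    have aux : ∀ f' : ℕ → ℤ, (∀ p, |(f' p : ℝ)| = |(f p : ℝ)|) →
        ((∏ p ∈ P, p ^ (f' p).toNat : ℕ) : ℝ) ≤ Real.exp E := by
      intro f' hf'
      have hpos := prod_pos P hPp (fun p => (f' p).toNat)
      rw [← Real.log_le_iff_le_exp (by exact_mod_cast hpos), log_prod P hPp]
      refine le_trans (Finset.sum_le_sum fun p hp => ?_) hE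
      refine mul_le_mul_of_nonneg_right ?_ (hlogp p hp)
      rw [← hf' p]
      exact tn _
    refine ⟨aux f (fun _ => rfl), aux (fun p => -f p) (fun p => ?_)⟩
    push_cast
    rw [abs_neg]
  obtain ⟨kN, kD⟩ := key σ _ hsumσ
  obtain ⟨kA, kB⟩ := key y _ hsumy
  refine ⟨z, ∏ p ∈ P, p ^ (σ p).toNat, ∏ p ∈ P, p ^ (-σ p).toNat, ∏ p ∈ P, p ^ (y p).toNat,
    ∏ p ∈ P, p ^ (-y p).toNat, hz1, hz2, ?_⟩
  refine ⟨prod_pos P hPp _, prod_pos P hPp _, prod_pos P hPp _, prod_pos P hPp _, ?_, kN, kD, kA,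
    kB, ?_⟩
  · have e1 : coord v s1 * ((∏ p ∈ P, p ^ (-σ p).toNat) ^ z * (∏ p ∈ P, p ^ (-y p).toNat) ^ g) =
        ∏ p ∈ P, p ^ ((coord v s1).factorization p + ((-σ p).toNat * z + (-y p).toNat * g)) := by
      conv_lhs => rw [← prod_eq hc1.ne' P hsub1]
      rw [← Finset.prod_pow, ← Finset.prod_pow, ← Finset.prod_mul_distrib,
        ← Finset.prod_mul_distrib]
      refine Finset.prod_congr rfl fun p _ => ?_
      rw [← pow_mul, ← pow_mul, ← pow_add, ← pow_add]
    have e2 : coord v s2 * ((∏ p ∈ P, p ^ (σ p).toNat) ^ z * (∏ p ∈ P, p ^ (y p).toNat) ^ g) =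
        ∏ p ∈ P, p ^ ((coord v s2).factorization p + ((σ p).toNat * z + (y p).toNat * g)) := by
      conv_lhs => rw [← prod_eq hc2.ne' P hsub2]
      rw [← Finset.prod_pow, ← Finset.prod_pow, ← Finset.prod_mul_distrib,
        ← Finset.prod_mul_distrib]
      refine Finset.prod_congr rfl fun p _ => ?_
      rw [← pow_mul, ← pow_mul, ← pow_add, ← pow_add]
    rw [e1, e2]
    refine Finset.prod_congr rfl fun p hp => ?_
    congr 1
    have h1 := (hzy p hp).1
    have h2 : ((σ p).toNat : ℤ) - ((-σ p).toNat : ℤ) = σ p := by omega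
    have h3 : ((y p).toNat : ℤ) - ((-y p).toNat : ℤ) = y p := by omega
    have h4 : (((coord v s1).factorization p + ((-σ p).toNat * z + (-y p).toNat * g) : ℕ) : ℤ) =
        (((coord v s2).factorization p + ((σ p).toNat * z + (y p).toNat * g) : ℕ) : ℤ) := by
      push_cast
      linear_combination h1 - (z : ℤ) * h2 - (g : ℤ) * h3
    exact_mod_cast h4
  · intro p hp hd
    have h1 : p ∈ P := by
      rcases (Nat.Prime.dvd_mul hp).mp hd with hd | hd
      · rcases (Nat.Prime.dvd_mul hp).mp hd with hd | hd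
        · rcases (Nat.Prime.dvd_mul hp).mp hd with hd | hd
          · exact prime_dvd P hPp _ p hp hd
          · exact prime_dvd P hPp _ p hp hd
        · exact prime_dvd P hPp _ p hp hd
      · exact prime_dvd P hPp _ p hp hd
    exact Nat.dvd_of_mem_primeFactors h1

end Pool.LH
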