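import Pool.Agent.H22.LH.DEC

set_option autoImplicit false

namespace Pool.LH

open Finset Pool.Agent.H98.ABCR Pool.SHA

namespace H22T

lemma unit_cast {q k n : ℕ} (hq : q.Prime) (h : ¬ q ∣ n) : IsUnit ((n : ℕ) : ZMod (q ^ k)) := by
  rw [ZMod.isUnit_iff_coprime]
  apply Nat.Coprime.pow_right
  exact ((Nat.Prime.coprime_iff_not_dvd hq).mpr h).symm

lemma not_dvd_prod {q t : ℕ} (hq : q.Prime) (f : Fin t → ℕ) (h : ∀ r, ¬ q ∣ f r) :
    ¬ q ∣ ∏ r, f r := by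
  intro hd
  obtain ⟨j, _, hdj⟩ := (Prime.dvd_finsetProd_iff hq.prime _).mp hd
  exact h j hdj

/-- the sign depends on `i` only -/
lemma sign (i s1 s2 : Fin 3) (h12 : s1 ≠ s2) (h1 : s1 ≠ i) (h2 : s2 ≠ i) :
    ∃ ε : ℤ, ∀ v : ℕ × ℕ, (coord v i : ℤ) ∣ (coord v s1 : ℤ) - ε * coord v s2 := by
  fin_cases i
  · refine ⟨1, fun v => ?_⟩
    fin_cases s1 <;> fin_cases s2 <;> simp_all [coord]
  · refine ⟨1, fun v => ?_⟩
    fin_cases s1 <;> fin_cases s2 <;> simp_all [coord]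
  · refine ⟨-1, fun v => ?_⟩
    fin_cases s1 <;> fin_cases s2 <;> simp_all [coord]
    rw [add_comm]

lemma mul_inv_cancel' {n : ℕ} {a : ZMod n} (h : IsUnit a) : a * a⁻¹ = 1 :=
  ZMod.mul_inv_of_unit a h

/-- cross multiplication of quotients in `ZMod n` -/
lemma cross {n : ℕ} {a b c d : ZMod n} (hb : IsUnit b) (hd : IsUnit d)
    (h : a * b⁻¹ = c * d⁻¹) : a * d = b * c := by
  have h1 := mul_inv_cancel' hb
  have h2 := mul_inv_cancel' hd
  linear_combination b * d * h + b * c * h2 - a * d * h1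

end H22T

open H22T H22D

theorem tup_thm : S_TUP := by
  classical
  intro t g z T x m i s1 s2 W N D A B U V hg h12 h1i h2i hT hW hinj hlt
  obtain ⟨ε, hε⟩ := sign i s1 s2 h12 h1i h2i
  have hne0 : ∀ q : ↥T, NeZero ((q : ℕ) ^ m q) := fun q => ⟨pow_ne_zero _ (hT q q.2).ne_zero⟩
  have hne1 : ∀ q : ↥T, NeZero (q : ℕ) := fun q => ⟨(hT q q.2).ne_zero⟩
  -- nondivisibility
  have hnd : ∀ w ∈ W, ∀ q ∈ T, ∀ r, ¬ q ∣ coord (w r) s1 * coord (w r) s2 := by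
    intro w hw q hq r hd
    obtain ⟨htri, hqd, -⟩ := hW w hw r
    have h3 := (hqd q hq).1
    rcases (hT q hq).dvd_mul.mp hd with hd | hd
    · exact Nat.not_coprime_of_dvd_of_dvd (hT q hq).one_lt hd h3 (cop htri s1 i h1i)
    · exact Nat.not_coprime_of_dvd_of_dvd (hT q hq).one_lt hd h3 (cop htri s2 i h2i)
  have hndall : ∀ w ∈ W, ∀ q ∈ T, ∀ r, ¬ q ∣ N (w r) * D (w r) * A (w r) * B (w r) := by
    intro w hw q hq r hd
    obtain ⟨-, -, hdec⟩ := hW w hw r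
    exact hnd w hw q hq r (hdec.pf q (hT q hq) hd)
  have hN : ∀ w ∈ W, ∀ q ∈ T, ¬ q ∣ ∏ r, N (w r) := fun w hw q hq =>
    not_dvd_prod (hT q hq) _ fun r hd => hndall w hw q hq r (by
      rw [mul_assoc, mul_assoc]; exact Dvd.dvd.mul_right hd _)
  have hD : ∀ w ∈ W, ∀ q ∈ T, ¬ q ∣ ∏ r, D (w r) := fun w hw q hq =>
    not_dvd_prod (hT q hq) _ fun r hd => hndall w hw q hq r (by
      rw [mul_assoc]; exact Dvd.dvd.mul_right (Dvd.dvd.mul_left hd _) _)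
  have hA : ∀ w ∈ W, ∀ q ∈ T, ¬ q ∣ ∏ r, A (w r) := fun w hw q hq =>
    not_dvd_prod (hT q hq) _ fun r hd => hndall w hw q hq r
      (Dvd.dvd.mul_right (Dvd.dvd.mul_left hd _) _)
  have hB : ∀ w ∈ W, ∀ q ∈ T, ¬ q ∣ ∏ r, B (w r) := fun w hw q hq =>
    not_dvd_prod (hT q hq) _ fun r hd => hndall w hw q hq r (Dvd.dvd.mul_left hd _)
  set Φ : (Fin t → ℕ × ℕ) → ((q : ↥T) → ZMod ((q : ℕ) ^ m q)) × ((q : ↥T) → ZMod (q : ℕ)) :=
    fun w => (fun q => ((∏ r, N (w r) : ℕ) : ZMod ((q : ℕ) ^ m q)) *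
        ((∏ r, D (w r) : ℕ) : ZMod ((q : ℕ) ^ m q))⁻¹,
      fun q => ((∏ r, A (w r) : ℕ) : ZMod (q : ℕ)) * ((∏ r, B (w r) : ℕ) : ZMod (q : ℕ))⁻¹)
    with hΦ
  have hcard : Fintype.card (((q : ↥T) → ZMod ((q : ℕ) ^ m q)) × ((q : ↥T) → ZMod (q : ℕ))) =
      ∏ q ∈ T, q ^ (m q + 1) := by
    rw [Fintype.card_prod, Fintype.card_pi, Fintype.card_pi]
    simp only [ZMod.card]
    rw [Finset.prod_coe_sort T (fun t => t ^ m t), Finset.prod_coe_sort T (fun t => t),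
      ← Finset.prod_mul_distrib]
    apply Finset.prod_congr rfl
    intro t _
    rw [pow_succ]
  have hlt2 : (Finset.univ : Finset (((q : ↥T) → ZMod ((q : ℕ) ^ m q)) ×
      ((q : ↥T) → ZMod (q : ℕ)))).card < W.card := by
    rw [Finset.card_univ, hcard]
    exact hlt
  obtain ⟨w, hw, w', hw', hne, heq⟩ := Finset.exists_ne_map_eq_of_card_lt_of_maps_to hlt2
    (f := Φ) (fun S _ => Finset.mem_coe.mpr (Finset.mem_univ _))
  have posN : ∀ w ∈ W, 0 < ∏ r, N (w r) := fun w hw =>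
    Finset.prod_pos fun r _ => (hW w hw r).2.2.N0
  have posD : ∀ w ∈ W, 0 < ∏ r, D (w r) := fun w hw =>
    Finset.prod_pos fun r _ => (hW w hw r).2.2.D0
  have posA : ∀ w ∈ W, 0 < ∏ r, A (w r) := fun w hw =>
    Finset.prod_pos fun r _ => (hW w hw r).2.2.A0
  have posB : ∀ w ∈ W, 0 < ∏ r, B (w r) := fun w hw =>
    Finset.prod_pos fun r _ => (hW w hw r).2.2.B0
  have bd : ∀ (f : ℕ × ℕ → ℕ) (E : ℝ) (u : Fin t → ℕ × ℕ), (∀ r, (f (u r) : ℝ) ≤ Real.exp E) →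
      ((∏ r, f (u r) : ℕ) : ℝ) ≤ Real.exp (t * E) := by
    intro f E u hu
    rw [Nat.cast_prod, Real.exp_nat_mul]
    calc ∏ r, (f (u r) : ℝ) ≤ ∏ _r : Fin t, Real.exp E :=
          Finset.prod_le_prod (fun r _ => Nat.cast_nonneg _) (fun r _ => hu r)
      _ = Real.exp E ^ t := by simp
  have bd2 : ∀ (a b : ℕ) (E : ℝ), (a : ℝ) ≤ Real.exp (t * E) → (b : ℝ) ≤ Real.exp (t * E) →
      ((a * b : ℕ) : ℝ) ≤ Real.exp (2 * t * E) := by
    intro a b E ha hb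
    push_cast
    calc (a : ℝ) * b ≤ Real.exp (t * E) * Real.exp (t * E) :=
          mul_le_mul ha hb (Nat.cast_nonneg _) (Real.exp_nonneg _)
      _ = Real.exp (2 * t * E) := by rw [← Real.exp_add]; ring_nf
  -- product relation
  have hrel : ∀ w ∈ W, (∏ r, coord (w r) s1) * ((∏ r, D (w r)) ^ z * (∏ r, B (w r)) ^ g) =
      (∏ r, coord (w r) s2) * ((∏ r, N (w r)) ^ z * (∏ r, A (w r)) ^ g) := by
    intro w hw
    rw [← Finset.prod_pow, ← Finset.prod_pow, ← Finset.prod_pow, ← Finset.prod_pow,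
      ← Finset.prod_mul_distrib, ← Finset.prod_mul_distrib, ← Finset.prod_mul_distrib,
      ← Finset.prod_mul_distrib]
    exact Finset.prod_congr rfl fun r _ => (hW w hw r).2.2.eq
  -- congruence
  have hcong : ∀ w ∈ W, ∀ q ∈ T, ((q ^ x q : ℕ) : ℤ) ∣
      (∏ r, (coord (w r) s1 : ℤ)) - ε ^ t * ∏ r, (coord (w r) s2 : ℤ) := by
    intro w hw q hq
    have h1 : ∀ r, ((q ^ x q : ℕ) : ℤ) ∣ (coord (w r) s1 : ℤ) - ε * coord (w r) s2 := by
      intro r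
      have h2 := ((hW w hw r).2.1 q hq).2
      exact (Int.natCast_dvd_natCast.mpr h2).trans (hε (w r))
    have h3 : ε ^ t * ∏ r, (coord (w r) s2 : ℤ) = ∏ r, (ε * (coord (w r) s2 : ℤ)) := by
      rw [Finset.prod_mul_distrib]; simp
    rw [h3]
    rw [← ZMod.intCast_eq_intCast_iff_dvd_sub]
    push_cast
    refine Finset.prod_congr rfl fun r _ => ?_
    have h4 := (ZMod.intCast_eq_intCast_iff_dvd_sub _ _ _).mpr (h1 r)
    push_cast at h4
    exact h4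
  -- relation modulo q ^ x q for one tuple
  have hone : ∀ w ∈ W, ∀ q ∈ T,
      (ε : ZMod (q ^ x q)) ^ t * (((∏ r, D (w r) : ℕ) : ZMod (q ^ x q)) ^ z *
        ((∏ r, B (w r) : ℕ) : ZMod (q ^ x q)) ^ g) =
      ((∏ r, N (w r) : ℕ) : ZMod (q ^ x q)) ^ z * ((∏ r, A (w r) : ℕ) : ZMod (q ^ x q)) ^ g := by
    intro w hw q hq
    have hu : IsUnit ((∏ r, coord (w r) s2 : ℕ) : ZMod (q ^ x q)) := by
      apply unit_cast (hT q hq)
      apply not_dvd_prod (hT q hq)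
      intro r hd
      exact hnd w hw q hq r (Dvd.dvd.mul_left hd _)
    have h1 := congrArg (fun n : ℕ => (n : ZMod (q ^ x q))) (hrel w hw)
    simp only [Nat.cast_mul, Nat.cast_pow] at h1
    have h2 := (ZMod.intCast_eq_intCast_iff_dvd_sub _ _ _).mpr (hcong w hw q hq)
    have h3 : ((∏ r, coord (w r) s1 : ℕ) : ZMod (q ^ x q)) =
        (ε : ZMod (q ^ x q)) ^ t * ((∏ r, coord (w r) s2 : ℕ) : ZMod (q ^ x q)) := by
      push_cast at h2 ⊢
      exact h2.symm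
    rw [h3] at h1
    apply hu.mul_left_cancel
    linear_combination h1
  refine ⟨(∏ r, N (w r)) * ∏ r, D (w' r), (∏ r, D (w r)) * ∏ r, N (w' r),
    (∏ r, A (w r)) * ∏ r, B (w' r), (∏ r, B (w r)) * ∏ r, A (w' r), ?_, ?_, ?_, ?_, ?_⟩
  · refine ⟨mul_pos (posN w hw) (posD w' hw'), mul_pos (posD w hw) (posN w' hw'),
      mul_pos (posA w hw) (posB w' hw'), mul_pos (posB w hw) (posA w' hw'), ?_, ?_, ?_, ?_, ?_, ?_,
      ?_, ?_⟩
    · by_contra hcon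
      push Not at hcon
      obtain ⟨c1, c2⟩ := hcon
      apply hne
      apply hinj w hw w' hw'
      have hTh : ∀ w ∈ W, Th s1 s2 w =
          ((∏ r, N (w r) : ℕ) : ℚ) ^ z * ((∏ r, A (w r) : ℕ) : ℚ) ^ g /
          (((∏ r, D (w r) : ℕ) : ℚ) ^ z * ((∏ r, B (w r) : ℕ) : ℚ) ^ g) := by
        intro w hw
        have h1 := congrArg (fun n : ℕ => (n : ℚ)) (hrel w hw)
        simp only [Nat.cast_mul, Nat.cast_pow] at h1
        have hd : ((∏ r, D (w r) : ℕ) : ℚ) ≠ 0 := by exact_mod_cast (posD w hw).ne'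
        have hb : ((∏ r, B (w r) : ℕ) : ℚ) ≠ 0 := by exact_mod_cast (posB w hw).ne'
        have hc2 : ((∏ r, coord (w r) s2 : ℕ) : ℚ) ≠ 0 := by
          have : 0 < ∏ r, coord (w r) s2 :=
            Finset.prod_pos fun r _ => coord_pos (hW w hw r).1 s2
          exact_mod_cast this.ne'
        unfold Th
        rw [Finset.prod_div_distrib, ← Nat.cast_prod, ← Nat.cast_prod,
          div_eq_div_iff hc2 (mul_ne_zero (pow_ne_zero _ hd) (pow_ne_zero _ hb)), h1]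
        ring
      rw [hTh w hw, hTh w' hw']
      have hd : ((∏ r, D (w r) : ℕ) : ℚ) ≠ 0 := by exact_mod_cast (posD w hw).ne'
      have hb : ((∏ r, B (w r) : ℕ) : ℚ) ≠ 0 := by exact_mod_cast (posB w hw).ne'
      have hd' : ((∏ r, D (w' r) : ℕ) : ℚ) ≠ 0 := by exact_mod_cast (posD w' hw').ne'
      have hb' : ((∏ r, B (w' r) : ℕ) : ℚ) ≠ 0 := by exact_mod_cast (posB w' hw').ne'
      rw [div_eq_div_iff (mul_ne_zero (pow_ne_zero _ hd) (pow_ne_zero _ hb))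
        (mul_ne_zero (pow_ne_zero _ hd') (pow_ne_zero _ hb'))]
      have e1 : ((∏ r, N (w r) : ℕ) : ℚ) * ((∏ r, D (w' r) : ℕ) : ℚ) =
          ((∏ r, D (w r) : ℕ) : ℚ) * ((∏ r, N (w' r) : ℕ) : ℚ) := by exact_mod_cast c1
      have e2 : ((∏ r, A (w r) : ℕ) : ℚ) * ((∏ r, B (w' r) : ℕ) : ℚ) =
          ((∏ r, B (w r) : ℕ) : ℚ) * ((∏ r, A (w' r) : ℕ) : ℚ) := by exact_mod_cast c2
      have e3 := congrArg (fun a => a ^ z) e1
      have e4 := congrArg (fun a => a ^ g) e2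
      simp only [mul_pow] at e3 e4
      calc _ = (((∏ r, N (w r) : ℕ) : ℚ) ^ z * ((∏ r, D (w' r) : ℕ) : ℚ) ^ z) *
            (((∏ r, A (w r) : ℕ) : ℚ) ^ g * ((∏ r, B (w' r) : ℕ) : ℚ) ^ g) := by ring
        _ = (((∏ r, D (w r) : ℕ) : ℚ) ^ z * ((∏ r, N (w' r) : ℕ) : ℚ) ^ z) *
            (((∏ r, B (w r) : ℕ) : ℚ) ^ g * ((∏ r, A (w' r) : ℕ) : ℚ) ^ g) := by rw [e3, e4]
        _ = _ := by ring
    · intro q hq hd
      rcases (hT q hq).dvd_mul.mp hd with hd | hd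
      · exact hN w hw q hq hd
      · exact hD w' hw' q hq hd
    · intro q hq hd
      rcases (hT q hq).dvd_mul.mp hd with hd | hd
      · exact hD w hw q hq hd
      · exact hN w' hw' q hq hd
    · intro q hq hd
      rcases (hT q hq).dvd_mul.mp hd with hd | hd
      · exact hA w hw q hq hd
      · exact hB w' hw' q hq hd
    · intro q hq hd
      rcases (hT q hq).dvd_mul.mp hd with hd | hd
      · exact hB w hw q hq hd
      · exact hA w' hw' q hq hd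
    · intro q hq
      have e1 := congrFun (congrArg (fun z => z.1) heq) ⟨q, hq⟩
      simp only [hΦ] at e1
      have e2 := cross (unit_cast (hT q hq) (hD w hw q hq)) (unit_cast (hT q hq) (hD w' hw' q hq)) e1
      have e3 : (((((∏ r, D (w r)) * ∏ r, N (w' r) : ℕ) : ℤ)) : ZMod (q ^ m q)) =
          (((((∏ r, N (w r)) * ∏ r, D (w' r) : ℕ) : ℤ)) : ZMod (q ^ m q)) := by
        push_cast at e2 ⊢
        exact e2.symm
      rw [ZMod.intCast_eq_intCast_iff_dvd_sub] at e3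
      rw [← Nat.cast_pow]
      exact e3
    · intro q hq
      have e1 := congrFun (congrArg (fun z => z.2) heq) ⟨q, hq⟩
      simp only [hΦ] at e1
      have uB : ∀ w ∈ W, IsUnit ((∏ r, B (w r) : ℕ) : ZMod q) := by
        intro w hw
        rw [ZMod.isUnit_iff_coprime]
        exact ((Nat.Prime.coprime_iff_not_dvd (hT q hq)).mpr (hB w hw q hq)).symm
      have e2 := cross (uB w hw) (uB w' hw') e1
      have e3 : (((((∏ r, B (w r)) * ∏ r, A (w' r) : ℕ) : ℤ)) : ZMod q) =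
          (((((∏ r, A (w r)) * ∏ r, B (w' r) : ℕ) : ℤ)) : ZMod q) := by
        push_cast at e2 ⊢
        exact e2.symm
      rw [ZMod.intCast_eq_intCast_iff_dvd_sub] at e3
      exact e3
    · intro q hq
      have h1 := hone w hw q hq
      have h2 := hone w' hw' q hq
      rw [← Nat.cast_pow, ← ZMod.intCast_eq_intCast_iff_dvd_sub]
      have e1 : ((((((∏ r, D (w r)) * ∏ r, N (w' r) : ℕ) : ℤ) ^ z *
          (((∏ r, B (w r)) * ∏ r, A (w' r) : ℕ) : ℤ) ^ g : ℤ)) : ZMod (q ^ x q)) =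
          (((∏ r, D (w r) : ℕ) : ZMod (q ^ x q)) ^ z * ((∏ r, B (w r) : ℕ) : ZMod (q ^ x q)) ^ g) *
          (((∏ r, N (w' r) : ℕ) : ZMod (q ^ x q)) ^ z *
            ((∏ r, A (w' r) : ℕ) : ZMod (q ^ x q)) ^ g) := by
        rw [Int.cast_mul, Int.cast_pow, Int.cast_pow, Int.cast_natCast, Int.cast_natCast,
          Nat.cast_mul, Nat.cast_mul, mul_pow, mul_pow]
        ring
      have e2 : ((((((∏ r, N (w r)) * ∏ r, D (w' r) : ℕ) : ℤ) ^ z *
          (((∏ r, A (w r)) * ∏ r, B (w' r) : ℕ) : ℤ) ^ g : ℤ)) : ZMod (q ^ x q)) =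
          (((∏ r, N (w r) : ℕ) : ZMod (q ^ x q)) ^ z * ((∏ r, A (w r) : ℕ) : ZMod (q ^ x q)) ^ g) *
          (((∏ r, D (w' r) : ℕ) : ZMod (q ^ x q)) ^ z *
            ((∏ r, B (w' r) : ℕ) : ZMod (q ^ x q)) ^ g) := by
        rw [Int.cast_mul, Int.cast_pow, Int.cast_pow, Int.cast_natCast, Int.cast_natCast,
          Nat.cast_mul, Nat.cast_mul, mul_pow, mul_pow]
        ring
      rw [e1, e2, ← h1, ← h2]
      ring
  · exact bd2 _ _ _ (bd N U w fun r => (hW w hw r).2.2.Nle) (bd D U w' fun r => (hW w' hw' r).2.2.Dle)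
  · exact bd2 _ _ _ (bd D U w fun r => (hW w hw r).2.2.Dle) (bd N U w' fun r => (hW w' hw' r).2.2.Nle)
  · exact bd2 _ _ _ (bd A V w fun r => (hW w hw r).2.2.Ale) (bd B V w' fun r => (hW w' hw' r).2.2.Ble)
  · exact bd2 _ _ _ (bd B V w fun r => (hW w hw r).2.2.Ble) (bd A V w' fun r => (hW w' hw' r).2.2.Ale)

end Pool.LH
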